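import Pool.Agent.Helper46.NB.Stmts

/-!
Project NB, row ITER: iteration of the colouring step.
-/

set_option autoImplicit false

namespace Pool.Agent.Helper49.NB

open Finset
open Pool.Agent.Helper46.NB
open scoped Classical

theorem aa_eq (l t : ℕ) (hl : 1 ≤ l) :
    aa l t = 1 / 4 * (1 - 1 / (4 * (l : ℝ))) ^ (2 * t - 2) := by
  have h : (l : ℝ) ≠ 0 := by
    have : (1 : ℝ) ≤ l := by exact_mod_cast hl
    positivity
  unfold aa th
  push_cast
  field_simp

theorem aa_le (l t : ℕ) (hl : 1 ≤ l) : aa l t ≤ 1 / 4 := by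
  rw [aa_eq l t hl]
  have h1 : (1 : ℝ) ≤ l := by exact_mod_cast hl
  have h2 : 1 / (4 * (l : ℝ)) ≤ 1 := by
    rw [div_le_one (by positivity)]; linarith
  have h3 : (0 : ℝ) ≤ 1 / (4 * (l : ℝ)) := by positivity
  have h4 : (1 - 1 / (4 * (l : ℝ))) ^ (2 * t - 2) ≤ 1 := pow_le_one₀ (by linarith) (by linarith)
  linarith

theorem le_aa (l t : ℕ) (ht : 1 ≤ t) (htl : t ≤ l) : 1 / 8 ≤ aa l t := by
  have hl : 1 ≤ l := le_trans ht htl
  rw [aa_eq l t hl]
  have h1 : (1 : ℝ) ≤ l := by exact_mod_cast hl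
  have h3 : (0 : ℝ) < 1 / (4 * (l : ℝ)) := by positivity
  have h2 : 1 / (4 * (l : ℝ)) ≤ 1 := by
    rw [div_le_one (by positivity)]; linarith
  have hb := one_add_mul_le_pow (a := -(1 / (4 * (l : ℝ)))) (by linarith) (2 * t - 2)
  have h5 : ((2 * t - 2 : ℕ) : ℝ) ≤ 2 * l := by
    have : 2 * t - 2 ≤ 2 * l := by omega
    exact_mod_cast this
  have h6 : ((2 * t - 2 : ℕ) : ℝ) * (1 / (4 * (l : ℝ))) ≤ 1 / 2 := by
    calc ((2 * t - 2 : ℕ) : ℝ) * (1 / (4 * (l : ℝ))) ≤ (2 * l) * (1 / (4 * (l : ℝ))) :=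
          mul_le_mul_of_nonneg_right h5 h3.le
      _ = 1 / 2 := by field_simp; norm_num
  have h7 : (1 : ℝ) / 2 ≤ (1 - 1 / (4 * (l : ℝ))) ^ (2 * t - 2) := by
    have : (1 : ℝ) + -(1 / (4 * (l : ℝ))) = 1 - 1 / (4 * (l : ℝ)) := by ring
    rw [this] at hb
    linarith
  linarith

theorem KK_eq (l t : ℕ) : KK l t * l = l - aa l t * t := by
  unfold KK aa
  ring

/-- the arithmetic of one step; `ρ = √t`, `r = √(log D)`, `x = e0` -/
theorem arith (l t g a K ρ r U x s T' L' q p : ℝ) (ht : 1 ≤ t) (hg : g = l - t) (hg0 : 0 ≤ g)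
    (ha1 : 1 / 8 ≤ a) (ha2 : a ≤ 1 / 4) (hK : K * l = l - a * t) (hρ : 1 ≤ ρ) (hρt : ρ ^ 2 = t)
    (hr : 3 ≤ r) (hU : U = 500000 * r ^ 4) (hx : x * U = 6300 * r) (hx0 : 0 ≤ x)
    (hx1 : x ≤ 1 / 1000) (hs : s = 100 * (ρ * r)) (hbig : g ≤ 33 * t) (hq : 1 ≤ q)
    (hgU : U * (q * (1 + 4 * x)) * ρ ≤ g) (hp : 33 * t ≤ p * (11 / 10) * g) (hp0 : 0 ≤ p)
    (hT2 : T' ≤ t * K * (1 - a) + 2 + s)
    (hL1 : l * K ^ 2 - 2 - s ≤ L') :
    T' ≤ t ∧ U * q * √T' ≤ L' - T' ∧ 33 * T' ≤ p * (L' - T') := by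
  have hl : 0 < l := by linarith
  have hr0 : 0 < r := by linarith
  have hU0 : 0 < U := by rw [hU]; positivity
  -- bounds for K
  have hK1 : 1 - a ≤ K := by
    have : (1 - a) * l ≤ K * l := by rw [hK]; nlinarith
    exact le_of_mul_le_mul_right this hl
  have hK2 : K ≤ 1 := by
    have : K * l ≤ 1 * l := by rw [hK]; nlinarith
    exact le_of_mul_le_mul_right this hl
  have hK34 : 3 / 4 ≤ K := by linarith
  -- the exact identity
  have hid : l * K ^ 2 - t * K * (1 - a) = K * g := by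
    have : l * K ^ 2 = K * (K * l) := by ring
    rw [this, hK, hg]; ring
  have hgU' : U * ρ ≤ g := by
    refine le_trans ?_ hgU
    have : U * ρ * 1 ≤ U * ρ * (q * (1 + 4 * x)) :=
      mul_le_mul_of_nonneg_left (by nlinarith) (by positivity)
    linarith
  -- `ρ ≥ U / 33`
  have hρU : U ≤ 33 * ρ := by
    have : U * ρ ≤ (33 * ρ) * ρ := by nlinarith
    exact le_of_mul_le_mul_right this (by linarith)
  have hρr : 3 ≤ ρ * r := by nlinarith
  -- (i)
  have h1 : 2 + s ≤ x * (t * K * (1 - a)) := by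
    have e1 : (9 : ℝ) / 16 ≤ K * (1 - a) := by nlinarith
    have e2 : 190 * r * ρ ≤ x * t := by
      have : x * U * ρ ≤ x * (33 * ρ) * ρ := by
        have := mul_le_mul_of_nonneg_left hρU hx0
        nlinarith
      rw [hx] at this
      nlinarith
    have e3 : (x * t) * (9 / 16) ≤ (x * t) * (K * (1 - a)) :=
      mul_le_mul_of_nonneg_left e1 (by positivity)
    rw [hs]
    nlinarith
  have hTP : T' ≤ t * K * (1 - a) * (1 + x) := by linarith
  -- (ii)
  have h2 : 4 + 2 * s ≤ x * (K * g) := by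
    have e1 : 3 / 4 * (U * ρ) ≤ K * g := by
      have := mul_le_mul_of_nonneg_right hK34 hg0
      linarith
    have e2 : x * (3 / 4 * (U * ρ)) ≤ x * (K * g) := mul_le_mul_of_nonneg_left e1 hx0
    have e3 : x * (3 / 4 * (U * ρ)) = 4725 * (ρ * r) := by
      have : x * (3 / 4 * (U * ρ)) = 3 / 4 * (x * U) * ρ := by ring
      rw [this, hx]; ring
    rw [hs]
    linarith
  have hLT : K * g * (1 - x) ≤ L' - T' := by
    have : L' - T' ≥ K * g - 4 - 2 * s := by linarith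
    nlinarith
  have hKg : 0 ≤ K * g := by positivity
  refine ⟨?_, ?_, ?_⟩
  · -- `T' ≤ t`
    refine hTP.trans ?_
    have e1 : K * (1 - a) ≤ 7 / 8 := by nlinarith
    have e2 : t * K * (1 - a) * (1 + x) = t * ((K * (1 - a)) * (1 + x)) := by ring
    rw [e2]
    have e3 : (K * (1 - a)) * (1 + x) ≤ 1 := by
      have : (K * (1 - a)) * (1 + x) ≤ 7 / 8 * (1 + x) :=
        mul_le_mul_of_nonneg_right e1 (by linarith)
      linarith
    nlinarith
  · have e1 : √T' ≤ ρ * K * (1 + x) := by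
      apply Real.sqrt_le_iff.mpr
      refine ⟨by positivity, hTP.trans ?_⟩
      have : (ρ * K * (1 + x)) ^ 2 = t * K * K * (1 + x) * (1 + x) := by rw [← hρt]; ring
      rw [this]
      have f1 : t * K * (1 - a) ≤ t * K * K := mul_le_mul_of_nonneg_left hK1 (by positivity)
      have f2 : t * K * (1 - a) * (1 + x) ≤ t * K * K * (1 + x) :=
        mul_le_mul_of_nonneg_right f1 (by linarith)
      have f3 : 0 ≤ t * K * K * (1 + x) := by positivity
      nlinarith
    have e2 : U * q * √T' ≤ U * q * (ρ * K * (1 + x)) :=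
      mul_le_mul_of_nonneg_left e1 (by positivity)
    refine e2.trans (le_trans ?_ hLT)
    have e3 : K * (1 - x) * (U * (q * (1 + 4 * x)) * ρ) ≤ K * (1 - x) * g :=
      mul_le_mul_of_nonneg_left hgU (mul_nonneg (by linarith) (by linarith))
    have e4 : (U * q * ρ * K) * (1 + x) ≤ (U * q * ρ * K) * ((1 - x) * (1 + 4 * x)) :=
      mul_le_mul_of_nonneg_left (by nlinarith) (by positivity)
    calc U * q * (ρ * K * (1 + x)) = (U * q * ρ * K) * (1 + x) := by ring
      _ ≤ (U * q * ρ * K) * ((1 - x) * (1 + 4 * x)) := e4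
      _ = K * (1 - x) * (U * (q * (1 + 4 * x)) * ρ) := by ring
      _ ≤ K * (1 - x) * g := e3
      _ = K * g * (1 - x) := by ring
  · have e1 : 33 * T' ≤ 33 * t * (K * ((1 - a) * (1 + x))) := by linarith
    have e2 : 33 * t * (K * ((1 - a) * (1 + x))) ≤
        p * (11 / 10) * g * (K * ((1 - a) * (1 + x))) :=
      mul_le_mul_of_nonneg_right hp (mul_nonneg (by linarith)
        (mul_nonneg (by linarith) (by linarith)))
    have e3 : 11 / 10 * ((1 - a) * (1 + x)) ≤ 1 - x := by nlinarith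
    have e4 : (p * (K * g)) * (11 / 10 * ((1 - a) * (1 + x))) ≤ (p * (K * g)) * (1 - x) :=
      mul_le_mul_of_nonneg_left e3 (by positivity)
    have e5 : p * (K * g * (1 - x)) ≤ p * (L' - T') := mul_le_mul_of_nonneg_left hLT hp0
    calc 33 * T' ≤ 33 * t * (K * ((1 - a) * (1 + x))) := e1
      _ ≤ p * (11 / 10) * g * (K * ((1 - a) * (1 + x))) := e2
      _ = (p * (K * g)) * (11 / 10 * ((1 - a) * (1 + x))) := by ring
      _ ≤ (p * (K * g)) * (1 - x) := e4
      _ = p * (K * g * (1 - x)) := by ring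
      _ ≤ p * (L' - T') := e5

theorem log_big (D : ℕ) (hD : 10 ^ 6 ≤ D) : 13 ≤ Real.log D := by
  have h1 : ((2 : ℝ)) ^ 19 ≤ D := by
    have : (2 : ℕ) ^ 19 ≤ D := le_trans (by norm_num) hD
    exact_mod_cast this
  have h2 : Real.log ((2 : ℝ) ^ 19) ≤ Real.log D := Real.log_le_log (by positivity) h1
  rw [Real.log_pow] at h2
  have h3 := Real.log_two_gt_d9
  push_cast at h2
  linarith

theorem iter_core (hS : ST_STEP) (hF : ST_FIN) (D : ℕ) (hD : 10 ^ 6 ≤ D) (V : Type) [Fintype V]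
    (r U x : ℝ) (hr : 3 ≤ r) (hr2 : r ^ 2 = Real.log D) (hU : U = 500000 * r ^ 4)
    (hx : x * U = 6300 * r) (hx0 : 0 ≤ x) (hx1 : x ≤ 1 / 1000) :
    ∀ (n : ℕ) (l t : ℕ) (E : Finset (Sym2 V)) (L : Sym2 V → Finset ℕ), St E L l t D →
      1 ≤ t → t ≤ D → l ≤ 2 * D → U * (1 + 4 * x) ^ n * √t ≤ (l : ℝ) - t →
      33 * (t : ℝ) ≤ (11 / 10) ^ n * ((l : ℝ) - t) → Col E L := by
  have hU0 : 0 < U := by rw [hU]; positivity
  intro n
  induction n with
  | zero =>
    intro l t E L hSt ht _ _ _ h2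
    have h3 : 32 * t ≤ l := by
      have : (32 : ℝ) * t ≤ l := by
        have : (0 : ℝ) ≤ t := by positivity
        rw [pow_zero] at h2
        linarith
      exact_mod_cast this
    exact hF V E L l t D hSt (by omega) h3
  | succ n ih =>
    intro l t E L hSt ht htD hlD h1 h2
    by_cases hsm : 32 * t ≤ l
    · exact hF V E L l t D hSt (by omega) hsm
    push Not at hsm
    have ht1 : (1 : ℝ) ≤ t := by exact_mod_cast ht
    have hρ : 1 ≤ √(t : ℝ) := Real.one_le_sqrt.mpr ht1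
    have hg0 : 0 ≤ (l : ℝ) - t := le_trans (by positivity) h1
    have htl : t ≤ l := by
      have : (t : ℝ) ≤ l := by linarith
      exact_mod_cast this
    have hl1 : 1 ≤ l := le_trans ht htl
    have hsmR : (l : ℝ) < 32 * t := by exact_mod_cast hsm
    have hρt : √(t : ℝ) ^ 2 = t := Real.sq_sqrt (by positivity)
    have hq1 : (1 : ℝ) ≤ (1 + 4 * x) ^ n := one_le_pow₀ (by linarith)
    have hs : ss t D = 100 * (√(t : ℝ) * r) := by
      unfold ss
      rw [← hr2, Real.sqrt_mul (by positivity), Real.sqrt_sq (by linarith)]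
    have hgU : U * ((1 + 4 * x) ^ n * (1 + 4 * x)) * √(t : ℝ) ≤ (l : ℝ) - t := by
      rw [← pow_succ]; exact h1
    have hp : 33 * (t : ℝ) ≤ (11 / 10) ^ n * (11 / 10) * ((l : ℝ) - t) := by
      rw [← pow_succ]; exact h2
    have hgU' : U * √(t : ℝ) ≤ (l : ℝ) - t := by
      refine le_trans ?_ hgU
      have : U * √(t : ℝ) * 1 ≤ U * √(t : ℝ) * ((1 + 4 * x) ^ n * (1 + 4 * x)) :=
        mul_le_mul_of_nonneg_left (by nlinarith) (by positivity)
      linarith
    have hρU : U ≤ 33 * √(t : ℝ) := by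
      have : U * √(t : ℝ) ≤ (33 * √(t : ℝ)) * √(t : ℝ) := by nlinarith
      exact le_of_mul_le_mul_right this (by linarith)
    -- the condition of STEP
    have hcond : 10 ^ 4 * Real.log D ≤ (t : ℝ) := by
      rw [← hr2, ← hρt]
      have e1 : 10 ^ 4 * r ^ 2 ≤ √(t : ℝ) := by
        have : 500000 * r ^ 4 ≤ 33 * √(t : ℝ) := by rw [← hU]; exact hρU
        nlinarith [mul_nonneg (sq_nonneg r) (show (0:ℝ) ≤ r ^ 2 - 9 by nlinarith)]
      nlinarith
    have ha1 := le_aa l t ht htl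
    have ha2 := aa_le l t hl1
    have hK := KK_eq l t
    have hlR : (1 : ℝ) ≤ l := by exact_mod_cast hl1
    have hK1 : 1 - aa l t ≤ KK l t := by
      have : (1 - aa l t) * l ≤ KK l t * l := by rw [hK]; nlinarith
      exact le_of_mul_le_mul_right this (by linarith)
    have hK2 : KK l t ≤ 1 := by
      have : KK l t * l ≤ 1 * l := by rw [hK]; nlinarith
      exact le_of_mul_le_mul_right this (by linarith)
    have hss0 : 0 ≤ ss t D := by rw [hs]; positivity
    -- the new parameters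
    set A : ℝ := l * KK l t ^ 2 - 1 - ss t D with hA
    set B : ℝ := t * KK l t * (1 - aa l t) + 1 + ss t D with hB
    have hid : (l : ℝ) * KK l t ^ 2 - t * KK l t * (1 - aa l t) = KK l t * (l - t) := by
      have : (l : ℝ) * KK l t ^ 2 = KK l t * (KK l t * l) := by ring
      rw [this, hK]; ring
    have hA0 : 0 ≤ A := by
      have e1 : 3 / 4 * (U * √(t : ℝ)) ≤ KK l t * ((l : ℝ) - t) := by
        have := mul_le_mul_of_nonneg_right (show (3 : ℝ) / 4 ≤ KK l t by linarith) hg0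
        linarith
      have e2 : 0 ≤ (t : ℝ) * KK l t * (1 - aa l t) :=
        mul_nonneg (mul_nonneg (by linarith) (by linarith)) (by linarith)
      have e3 : 1000 * r ≤ U := by
        rw [hU]
        have : (1:ℝ) ≤ r ^ 3 := one_le_pow₀ (by linarith)
        nlinarith
      have e4 : 1000 * r * √(t : ℝ) ≤ U * √(t : ℝ) := mul_le_mul_of_nonneg_right e3 (by positivity)
      have e5 : 1 ≤ r * √(t : ℝ) := by nlinarith
      rw [hA, hs]
      nlinarith
    have hB1 : 1 ≤ B := by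
      have e2 : 0 ≤ (t : ℝ) * KK l t * (1 - aa l t) :=
        mul_nonneg (mul_nonneg (by linarith) (by linarith)) (by linarith)
      rw [hB]; linarith
    have hfl : ((⌊A⌋₊ : ℕ) : ℝ) ≤ A := Nat.floor_le hA0
    have hfl2 : A - 1 < (⌊A⌋₊ : ℝ) := by
      have := Nat.lt_floor_add_one A
      linarith
    have hce : B ≤ (⌈B⌉₊ : ℝ) := Nat.le_ceil B
    have hce2 : (⌈B⌉₊ : ℝ) < B + 1 := Nat.ceil_lt_add_one (by linarith)
    obtain ⟨E', L', hSt', hCol⟩ := hS D hD l t V E L hSt ht htl htD hlD hcond ⌊A⌋₊ ⌈B⌉₊ hfl hce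
    apply hCol
    obtain ⟨c1, c2, c3⟩ := arith (l : ℝ) t ((l : ℝ) - t) (aa l t) (KK l t) (√(t : ℝ)) r U x
      (ss t D) (⌈B⌉₊ : ℝ) (⌊A⌋₊ : ℝ) ((1 + 4 * x) ^ n) ((11 / 10) ^ n) ht1 rfl hg0 ha1 ha2 hK hρ hρt
      hr hU hx hx0 hx1 hs (by linarith) hq1 hgU hp (by positivity) (by linarith) (by linarith)
    have hB1' : 1 ≤ ⌈B⌉₊ := by
      have : (1 : ℝ) ≤ (⌈B⌉₊ : ℝ) := le_trans hB1 hce
      exact_mod_cast this
    have hBt : ⌈B⌉₊ ≤ t := by exact_mod_cast c1
    have hAl : ⌊A⌋₊ ≤ l := by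
      have : ((⌊A⌋₊ : ℕ) : ℝ) ≤ (l : ℝ) := by
        refine hfl.trans ?_
        have e1 : KK l t ^ 2 ≤ 1 := pow_le_one₀ (by linarith) hK2
        have e2 : (l : ℝ) * KK l t ^ 2 ≤ l * 1 := mul_le_mul_of_nonneg_left e1 (by linarith)
        rw [hA]; linarith
      exact_mod_cast this
    exact ih ⌊A⌋₊ ⌈B⌉₊ E' L' hSt' hB1' (hBt.trans htD) (hAl.trans hlD) c2 c3

theorem st_ITER : ST_STEP → ST_FIN → ST_ITER := by
  intro hS hF D hD l t V _ E L hSt ht htD hlD hgap
  have hlam := log_big D hD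
  set lam : ℝ := Real.log D with hlamdef
  set r : ℝ := √lam with hrdef
  have hr2 : r ^ 2 = lam := Real.sq_sqrt (by linarith)
  have hr : 3 ≤ r := by
    rw [hrdef]; apply Real.le_sqrt_of_sq_le; linarith
  have hr0 : 0 < r := by linarith
  set U : ℝ := 500000 * r ^ 4 with hU
  have hU0 : 0 < U := by rw [hU]; positivity
  set x : ℝ := 6300 * r / U with hxdef
  have hx : x * U = 6300 * r := by rw [hxdef]; field_simp
  have hx0 : 0 ≤ x := by rw [hxdef]; positivity
  have hr3 : (27 : ℝ) ≤ r ^ 3 := by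
    have : (3 : ℝ) ^ 3 ≤ r ^ 3 := pow_le_pow_left₀ (by norm_num) hr 3
    norm_num at this
    linarith
  have hx1 : x ≤ 1 / 1000 := by
    rw [hxdef, div_le_iff₀ hU0, hU]
    nlinarith
  have ht1 : (1 : ℝ) ≤ t := by exact_mod_cast ht
  have hρ : 1 ≤ √(t : ℝ) := Real.one_le_sqrt.mpr ht1
  have hρt : √(t : ℝ) ^ 2 = t := Real.sq_sqrt (by positivity)
  have hD0 : (0 : ℝ) < D := by
    have : 0 < D := lt_of_lt_of_le (by norm_num) hD
    exact_mod_cast this
  -- number of steps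
  set n : ℕ := ⌈8 * lam⌉₊ with hn
  have hn1 : 8 * lam ≤ n := Nat.le_ceil _
  have hn2 : (n : ℝ) ≤ 9 * lam := by
    have := (Nat.ceil_lt_add_one (show (0:ℝ) ≤ 8 * lam by linarith)).le
    rw [← hn] at this
    linarith
  refine iter_core hS hF D hD V r U x hr hr2 hU hx hx0 hx1 n l t E L hSt ht htD hlD ?_ ?_
  · -- `U (1+4x)^n √t ≤ g`
    have e1 : (1 + 4 * x) ^ n ≤ 2 := by
      have f1 : 1 + 4 * x ≤ Real.exp (4 * x) := by
        have := Real.add_one_le_exp (4 * x)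
        linarith
      have f2 : (1 + 4 * x) ^ n ≤ Real.exp (4 * x) ^ n := pow_le_pow_left₀ (by linarith) f1 n
      have f3 : Real.exp (4 * x) ^ n = Real.exp (n * (4 * x)) := by rw [← Real.exp_nat_mul]
      have f4 : (n : ℝ) * (4 * x) ≤ 1 / 2 := by
        have g1 : (n : ℝ) * (4 * x) ≤ 9 * lam * (4 * x) :=
          mul_le_mul_of_nonneg_right hn2 (by linarith)
        refine g1.trans ?_
        rw [hxdef, ← hr2]
        have g2 : 9 * r ^ 2 * (4 * (6300 * r / U)) = (226800 * r ^ 3) / U := by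
          field_simp; ring
        rw [g2, div_le_iff₀ hU0, hU]
        nlinarith [pow_pos hr0 3]
      have f5 : Real.exp (n * (4 * x)) ≤ Real.exp (Real.log 2) :=
        Real.exp_le_exp.mpr (by have := Real.log_two_gt_d9; linarith)
      rw [Real.exp_log (by norm_num)] at f5
      linarith
    have e2 : U * (1 + 4 * x) ^ n * √(t : ℝ) ≤ U * 2 * √(t : ℝ) := by
      apply mul_le_mul_of_nonneg_right _ (by positivity)
      exact mul_le_mul_of_nonneg_left e1 hU0.le
    have e3 : U * 2 * √(t : ℝ) = 10 ^ 6 * √(t : ℝ) * lam ^ 2 := by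
      rw [hU, ← hr2]; ring
    linarith
  · -- `33 t ≤ 1.1^n g`
    have e1 : √(D : ℝ) ≤ (11 / 10) ^ n := by
      have f0 : (1 : ℝ) / 11 ≤ Real.log (11 / 10) := by
        have := Real.one_sub_inv_le_log_of_pos (show (0:ℝ) < 11 / 10 by norm_num)
        norm_num at this
        linarith
      have f1 : lam / 2 ≤ n * Real.log (11 / 10) := by
        have : 8 * lam * (1 / 11) ≤ n * Real.log (11 / 10) :=
          mul_le_mul hn1 f0 (by norm_num) (by positivity)
        linarith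
      have f2 : Real.log √(D : ℝ) = lam / 2 := by
        rw [Real.log_sqrt hD0.le]
      have f3 : Real.log √(D : ℝ) ≤ Real.log ((11 / 10) ^ n) := by
        rw [f2, Real.log_pow]; exact f1
      exact (Real.log_le_log_iff (Real.sqrt_pos.mpr hD0) (by positivity)).mp f3
    have e2 : √(t : ℝ) ≤ √(D : ℝ) := Real.sqrt_le_sqrt (by exact_mod_cast htD)
    have e3 : 33 * √(t : ℝ) ≤ (l : ℝ) - t := by
      have : 33 * √(t : ℝ) ≤ 10 ^ 6 * √(t : ℝ) * lam ^ 2 := by
        have g1 : (1 : ℝ) ≤ lam ^ 2 := one_le_pow₀ (by linarith)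
        nlinarith
      linarith
    calc 33 * (t : ℝ) = √(t : ℝ) * (33 * √(t : ℝ)) := by
          rw [show √(t : ℝ) * (33 * √(t : ℝ)) = 33 * √(t : ℝ) ^ 2 by ring, hρt]
      _ ≤ (11 / 10) ^ n * ((l : ℝ) - t) :=
          mul_le_mul (e2.trans e1) e3 (by positivity) (by positivity)

end Pool.Agent.Helper49.NB
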